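import Mathlib
import Pool.Agent.W792.LL.Stm

/-!
Averaging for one function (`S_OSC → S_AVG0`).
-/

namespace Pool.Agent.W191.LL

open MeasureTheory Filter Set
open scoped Topology ComplexConjugate
open Pool.Agent.W792.LL UnitAddTorus

noncomputable section

/-- The Haar probability measure of the torus. -/
def mu (d : ℕ) : Measure (UnitAddTorus (Fin d)) := Measure.pi fun _ => AddCircle.haarAddCircle

instance (d : ℕ) : IsProbabilityMeasure (mu d) := by unfold mu; infer_instance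

lemma mfc_eq {d : ℕ} (f : UnitAddTorus (Fin d) → ℂ) (n : Fin d → ℤ) :
    mFourierCoeff f n = ∫ t, mFourier (-n) t * f t ∂(mu d) := rfl

lemma mf_norm {d : ℕ} (n : Fin d → ℤ) (t : UnitAddTorus (Fin d)) : ‖mFourier n t‖ ≤ 1 := by
  have := (mFourier n).norm_coe_le_norm t
  rwa [mFourier_norm] at this

lemma mfc_le {d : ℕ} (f : UnitAddTorus (Fin d) → ℂ) (C : ℝ) (h : ∀ k, ‖f k‖ ≤ C)
    (n : Fin d → ℤ) : ‖mFourierCoeff f n‖ ≤ C := by
  rw [mfc_eq]
  have := norm_integral_le_of_norm_le_const (μ := mu d)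
    (f := fun t => mFourier (-n) t * f t) (C := C) (Eventually.of_forall fun t => by
      rw [norm_mul]
      calc ‖mFourier (-n) t‖ * ‖f t‖ ≤ 1 * C :=
            mul_le_mul (mf_norm _ _) (h t) (norm_nonneg _) zero_le_one
        _ = C := one_mul C)
  simpa using this

lemma mfc_int {d : ℕ} (f : UnitAddTorus (Fin d) → ℂ) (hf : Continuous f) (n : Fin d → ℤ) :
    Integrable (fun t => mFourier n t * f t) (mu d) := by
  have hc : Continuous fun t => mFourier n t * f t := (mFourier n).continuous.mul hf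
  have := hc.continuousOn.integrableOn_compact (μ := mu d) isCompact_univ
  rwa [integrableOn_univ] at this

lemma mfc_add {d : ℕ} (f g : UnitAddTorus (Fin d) → ℂ) (hf : Continuous f) (hg : Continuous g)
    (n : Fin d → ℤ) :
    mFourierCoeff (fun k => f k + g k) n = mFourierCoeff f n + mFourierCoeff g n := by
  rw [mfc_eq, mfc_eq, mfc_eq, ← integral_add (mfc_int f hf _) (mfc_int g hg _)]
  simp only [mul_add]

lemma mfc_smul {d : ℕ} (f : UnitAddTorus (Fin d) → ℂ) (c : ℂ) (n : Fin d → ℤ) :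
    mFourierCoeff (fun k => c * f k) n = c * mFourierCoeff f n := by
  rw [mfc_eq, mfc_eq, ← integral_const_mul]
  congr 1
  ext t
  ring

lemma mfc_shift {d : ℕ} (f : UnitAddTorus (Fin d) → ℂ) (m n : Fin d → ℤ) :
    mFourierCoeff (fun k => mFourier m k * f k) n = mFourierCoeff f (n - m) := by
  rw [mfc_eq, mfc_eq]
  congr 1
  ext t
  rw [← mul_assoc, ← mFourier_add]
  congr 2
  rw [neg_sub, sub_eq_add_neg, add_comm]

/-- The phase. -/
def ph (d : ℕ) (M : ℕ) (k : UnitAddTorus (Fin d)) : UnitAddCircle :=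
  ((M * lap d k / (2 * Real.pi) : ℝ) : UnitAddCircle)

lemma ph_cont (d M : ℕ) : Continuous (ph d M) := by
  unfold ph
  exact (AddCircle.continuous_mk' 1).comp (by fun_prop)

/-- The average over the fibre. -/
def fib {d : ℕ} (F : C(UnitAddTorus (Fin d) × UnitAddCircle, ℂ)) (k : UnitAddTorus (Fin d)) : ℂ :=
  ∫ φ in Set.Ioc (0 : ℝ) 1, F (k, (φ : UnitAddCircle))

lemma fib_cont {d : ℕ} (F : C(UnitAddTorus (Fin d) × UnitAddCircle, ℂ)) : Continuous (fib F) := by
  have h : fib F = fun k => ∫ φ in Set.Icc (0 : ℝ) 1, F (k, (φ : UnitAddCircle)) := by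
    funext k
    unfold fib
    rw [integral_Icc_eq_integral_Ioc]
  rw [h]
  refine continuous_parametric_integral_of_continuous (f := fun k (φ : ℝ) =>
    F (k, (φ : UnitAddCircle))) ?_ isCompact_Icc
  exact F.continuous.comp (continuous_fst.prodMk ((AddCircle.continuous_mk' 1).comp continuous_snd))

lemma fib_int {d : ℕ} (F : C(UnitAddTorus (Fin d) × UnitAddCircle, ℂ)) (k : UnitAddTorus (Fin d)) :
    IntegrableOn (fun φ : ℝ => F (k, (φ : UnitAddCircle))) (Set.Ioc (0 : ℝ) 1) := by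
  have hc : Continuous (fun φ : ℝ => F (k, (φ : UnitAddCircle))) :=
    F.continuous.comp (continuous_const.prodMk (AddCircle.continuous_mk' 1))
  exact (hc.continuousOn.integrableOn_compact isCompact_Icc).mono_set Set.Ioc_subset_Icc_self

lemma fib_le {d : ℕ} (F : C(UnitAddTorus (Fin d) × UnitAddCircle, ℂ)) (k : UnitAddTorus (Fin d)) :
    ‖fib F k‖ ≤ ‖F‖ := by
  unfold fib
  have := norm_setIntegral_le_of_norm_le_const (μ := (volume : Measure ℝ)) (s := Set.Ioc (0 : ℝ) 1)
    (f := fun φ : ℝ => F (k, (φ : UnitAddCircle))) (C := ‖F‖) (by simp)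
    (fun φ _ => F.norm_coe_le_norm _)
  simpa using this

/-- The averaged symbol. -/
def A (d M : ℕ) (F : C(UnitAddTorus (Fin d) × UnitAddCircle, ℂ)) (k : UnitAddTorus (Fin d)) : ℂ :=
  F (k, ph d M k) - fib F k

lemma A_cont (d M : ℕ) (F : C(UnitAddTorus (Fin d) × UnitAddCircle, ℂ)) : Continuous (A d M F) := by
  unfold A
  exact (F.continuous.comp (continuous_id.prodMk (ph_cont d M))).sub (fib_cont F)

lemma A_le (d M : ℕ) (F : C(UnitAddTorus (Fin d) × UnitAddCircle, ℂ)) (k : UnitAddTorus (Fin d)) :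
    ‖A d M F k‖ ≤ 2 * ‖F‖ := by
  unfold A
  calc _ ≤ ‖F (k, ph d M k)‖ + ‖fib F k‖ := norm_sub_le _ _
    _ ≤ ‖F‖ + ‖F‖ := add_le_add (F.norm_coe_le_norm _) (fib_le F k)
    _ = _ := by ring

lemma A_add (d M : ℕ) (F G : C(UnitAddTorus (Fin d) × UnitAddCircle, ℂ)) :
    A d M (F + G) = fun k => A d M F k + A d M G k := by
  funext k
  unfold A fib
  have h : ∫ φ in Set.Ioc (0 : ℝ) 1, (F + G) (k, (φ : UnitAddCircle))
      = (∫ φ in Set.Ioc (0 : ℝ) 1, F (k, (φ : UnitAddCircle)))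
        + ∫ φ in Set.Ioc (0 : ℝ) 1, G (k, (φ : UnitAddCircle)) := by
    rw [← integral_add (fib_int F k) (fib_int G k)]
    rfl
  rw [h, ContinuousMap.add_apply]
  ring

lemma A_smul (d M : ℕ) (c : ℂ) (F : C(UnitAddTorus (Fin d) × UnitAddCircle, ℂ)) :
    A d M (c • F) = fun k => c * A d M F k := by
  funext k
  unfold A fib
  have h : ∫ φ in Set.Ioc (0 : ℝ) 1, (c • F) (k, (φ : UnitAddCircle))
      = c * (∫ φ in Set.Ioc (0 : ℝ) 1, F (k, (φ : UnitAddCircle))) := by
    rw [← integral_const_mul]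
    rfl
  rw [h, ContinuousMap.smul_apply, smul_eq_mul]
  ring

/-- The set of functions for which the averaging holds. -/
def Good (d : ℕ) : Submodule ℂ C(UnitAddTorus (Fin d) × UnitAddCircle, ℂ) where
  carrier := {F | ∀ δ : ℝ, 0 < δ → ∃ M₀ : ℕ, ∀ M : ℕ, M₀ ≤ M → ∀ x : Fin d → ℤ,
    ‖mFourierCoeff (A d M F) x‖ ≤ δ}
  zero_mem' := by
    intro δ hδ
    refine ⟨0, fun M _ x => ?_⟩
    refine (mfc_le _ 0 (fun k => ?_) x).trans hδ.le
    simpa using A_le d M 0 k
  add_mem' := by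
    intro F G hF hG δ hδ
    obtain ⟨M₁, h₁⟩ := hF (δ / 2) (by positivity)
    obtain ⟨M₂, h₂⟩ := hG (δ / 2) (by positivity)
    refine ⟨max M₁ M₂, fun M hM x => ?_⟩
    rw [A_add, mfc_add _ _ (A_cont d M F) (A_cont d M G)]
    calc _ ≤ _ := norm_add_le _ _
      _ ≤ δ / 2 + δ / 2 := add_le_add (h₁ M ((le_max_left _ _).trans hM) x)
          (h₂ M ((le_max_right _ _).trans hM) x)
      _ = δ := by ring
  smul_mem' := by
    intro c F hF δ hδ
    obtain ⟨M₁, h₁⟩ := hF (δ / (‖c‖ + 1)) (by positivity)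
    refine ⟨M₁, fun M hM x => ?_⟩
    rw [A_smul, mfc_smul, norm_mul]
    calc ‖c‖ * _ ≤ (‖c‖ + 1) * (δ / (‖c‖ + 1)) := by
          gcongr
          · linarith
          · exact h₁ M hM x
      _ = δ := by field_simp

lemma good_closed (d : ℕ) : (Good d).topologicalClosure ≤ Good d := by
  intro F hF δ hδ
  have hF' : F ∈ closure (Good d : Set C(UnitAddTorus (Fin d) × UnitAddCircle, ℂ)) := hF
  rw [Metric.mem_closure_iff] at hF'
  obtain ⟨G, hG, hFG⟩ := hF' (δ / 4) (by positivity)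
  obtain ⟨M₁, h₁⟩ := hG (δ / 2) (by positivity)
  refine ⟨M₁, fun M hM x => ?_⟩
  have e : F = G + (F - G) := by abel
  rw [e, A_add, mfc_add _ _ (A_cont d M G) (A_cont d M (F - G))]
  rw [dist_eq_norm] at hFG
  calc _ ≤ _ := norm_add_le _ _
    _ ≤ δ / 2 + 2 * (δ / 4) := add_le_add (h₁ M hM x)
        ((mfc_le _ _ (A_le d M (F - G)) x).trans (by gcongr))
    _ = δ := by ring

/-- The monomials. -/
def mono {d : ℕ} (n : (Fin d → ℤ) × ℤ) : C(UnitAddTorus (Fin d) × UnitAddCircle, ℂ) where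
  toFun p := mFourier n.1 p.1 * fourier n.2 p.2
  continuous_toFun := by fun_prop

lemma mono_apply {d : ℕ} (n : (Fin d → ℤ) × ℤ) (p : UnitAddTorus (Fin d) × UnitAddCircle) :
    mono n p = mFourier n.1 p.1 * fourier n.2 p.2 := rfl

/-- The star subalgebra generated by the monomials. -/
def alg (d : ℕ) : StarSubalgebra ℂ C(UnitAddTorus (Fin d) × UnitAddCircle, ℂ) where
  toSubalgebra := Algebra.adjoin ℂ (range mono)
  star_mem' := by
    change Algebra.adjoin ℂ (range mono) ≤ star (Algebra.adjoin ℂ (range mono))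
    refine Algebra.adjoin_le ?_
    rintro _ ⟨n, rfl⟩
    refine Algebra.subset_adjoin ⟨-n, ?_⟩
    ext1 x
    rw [ContinuousMap.star_apply, mono_apply, mono_apply, star_mul']
    simp only [Prod.fst_neg, Prod.snd_neg, mFourier_neg, fourier_neg]
    rfl

theorem alg_coe (d : ℕ) :
    (alg d).toSubalgebra.toSubmodule = Submodule.span ℂ (range (mono (d := d))) := by
  apply Algebra.adjoin_eq_span_of_subset
  refine .trans (fun x ↦ Submonoid.closure_induction (fun _ ↦ id) ⟨0, ?_⟩ ?_) Submodule.subset_span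
  · ext z
    simp [mono_apply, mFourier_zero]
  · rintro _ _ _ _ ⟨m, rfl⟩ ⟨n, rfl⟩
    refine ⟨m + n, ?_⟩
    ext z
    rw [ContinuousMap.mul_apply, mono_apply, mono_apply, mono_apply]
    simp only [Prod.fst_add, Prod.snd_add, mFourier_add, fourier_add]
    ring

theorem alg_sep (d : ℕ) : (alg d).SeparatesPoints := by
  classical
  rintro ⟨x, s⟩ ⟨y, t⟩ hxy
  by_cases h : x = y
  · subst h
    have hst : s ≠ t := fun h => hxy (by rw [h])
    refine ⟨_, ⟨mono (0, 1), Algebra.subset_adjoin ⟨(0, 1), rfl⟩, rfl⟩, ?_⟩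
    dsimp only
    rw [mono_apply, mono_apply]
    simp only [mFourier_zero, ContinuousMap.one_apply, one_mul, fourier_one, Ne]
    contrapose hst
    exact AddCircle.injective_toCircle one_ne_zero (Subtype.coe_injective hst)
  · obtain ⟨i, hi⟩ := Function.ne_iff.mp h
    refine ⟨_, ⟨mono (Pi.single i 1, 0), Algebra.subset_adjoin ⟨(Pi.single i 1, 0), rfl⟩, rfl⟩, ?_⟩
    dsimp only
    rw [mono_apply, mono_apply]
    simp only [mFourier_single, fourier_zero, mul_one, fourier_one, Ne]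
    contrapose hi
    exact AddCircle.injective_toCircle one_ne_zero (Subtype.coe_injective hi)

theorem span_dense (d : ℕ) :
    (Submodule.span ℂ (range (mono (d := d)))).topologicalClosure = ⊤ := by
  rw [← alg_coe]
  exact congr_arg (Subalgebra.toSubmodule <| StarSubalgebra.toSubalgebra ·)
    (ContinuousMap.starSubalgebra_topologicalClosure_eq_top_of_separatesPoints _ (alg_sep d))

lemma fib_mono_zero {d : ℕ} (n : Fin d → ℤ) (k : UnitAddTorus (Fin d)) :
    fib (mono (n, 0)) k = mFourier n k := by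
  unfold fib
  simp [mono_apply]

lemma fib_mono_ne {d : ℕ} (n : Fin d → ℤ) (j : ℤ) (hj : j ≠ 0) (k : UnitAddTorus (Fin d)) :
    fib (mono (n, j)) k = 0 := by
  unfold fib
  simp only [mono_apply]
  rw [integral_const_mul]
  have : ∫ φ in Set.Ioc (0 : ℝ) 1, (fourier j (φ : UnitAddCircle) : ℂ) = 0 := by
    have h1 : ∫ φ in Set.Ioc (0 : ℝ) 1, (fourier j (φ : UnitAddCircle) : ℂ)
        = ∫ φ in (0:ℝ)..1, Complex.exp (2 * Real.pi * Complex.I * j * φ) := by
      rw [intervalIntegral.integral_of_le zero_le_one]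
      congr 1
      ext φ
      rw [fourier_coe_apply]
      congr 1
      simp
    have hj' : (2 * Real.pi * Complex.I * j : ℂ) ≠ 0 := by
      simp [Real.pi_ne_zero, Complex.I_ne_zero, hj]
    rw [h1, integral_exp_mul_complex hj']
    have h2 : (2 * Real.pi * Complex.I * j * (1:ℝ) : ℂ) = j * (2 * Real.pi * Complex.I) := by
      push_cast; ring
    rw [h2, Complex.exp_int_mul_two_pi_mul_I]
    simp
  rw [this, mul_zero]

lemma A_mono_ne {d : ℕ} (M : ℕ) (n : Fin d → ℤ) (j : ℤ) (hj : j ≠ 0) :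
    A d M (mono (n, j)) = fun k => mFourier n k *
      Complex.exp (Complex.I * ((j * M : ℝ) : ℂ) * lap d k) := by
  funext k
  unfold A
  rw [fib_mono_ne n j hj, sub_zero, mono_apply]
  unfold ph
  simp only
  rw [fourier_coe_apply]
  congr 2
  have : (Real.pi : ℂ) ≠ 0 := by exact_mod_cast Real.pi_ne_zero
  push_cast
  field_simp

lemma good_mono (h : S_OSC) {d : ℕ} (hd : 0 < d) (n : (Fin d → ℤ) × ℤ) : mono n ∈ Good d := by
  obtain ⟨n, j⟩ := n
  intro δ hδ
  by_cases hj : j = 0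
  · subst hj
    refine ⟨0, fun M _ x => ?_⟩
    refine (mfc_le _ 0 (fun k => ?_) x).trans hδ.le
    unfold A
    rw [fib_mono_zero, mono_apply]
    simp
  · obtain ⟨M₀, hM₀⟩ := h δ hδ
    obtain ⟨N, hN⟩ := exists_nat_ge M₀
    refine ⟨N, fun M hM x => ?_⟩
    rw [A_mono_ne M n j hj, mfc_shift]
    refine hM₀ (j * M) ?_ d hd (x - n)
    rw [abs_mul, Nat.abs_cast]
    have h1 : (1 : ℝ) ≤ |(j : ℝ)| := by exact_mod_cast Int.one_le_abs hj
    have h2 : (N : ℝ) ≤ M := by exact_mod_cast hM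
    calc M₀ ≤ N := hN
      _ ≤ 1 * M := by rw [one_mul]; exact h2
      _ ≤ |(j : ℝ)| * M := by gcongr

theorem main : Pool.Agent.W792.LL.S_OSC → Pool.Agent.W792.LL.S_AVG0 := by
  intro h d hd F δ hδ
  have h1 : Submodule.span ℂ (range (mono (d := d))) ≤ Good d := by
    rw [Submodule.span_le]
    rintro _ ⟨n, rfl⟩
    exact good_mono h hd n
  have h2 : F ∈ Good d := by
    apply good_closed d
    apply Submodule.topologicalClosure_mono h1
    rw [span_dense]
    trivial
  exact h2 δ hδ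

end

end Pool.Agent.W191.LL
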